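import Pool.Agent.Helper58.ETL.Defs

/-!
# ETL-C2: four points on the graph of an affine map

Proof (helper58): the line through three points on which the Steinberg relation holds.
-/

set_option autoImplicit false

namespace Pool.Agent.Helper58.ETL

open Module

variable {k F A W B : Type*} [Field k] [Field F] [Algebra k F] [AddCommGroup A]
  [AddCommGroup W] [AddCommGroup B]

namespace C2

theorem map_one {φ : F → W} (hs : IsColour k φ) : φ 1 = 0 := by
  have h := hs.map_const 1 one_ne_zero
  rwa [RingHom.map_one] at h

theorem map_smul' {φ : F → W} (hs : IsColour k φ) {c : k} (hc : c ≠ 0) {x : F} (hx : x ≠ 0) :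
    φ (algebraMap k F c * x) = φ x := by
  rw [hs.map_mul _ _ (by simpa using hc) hx, hs.map_const c hc, zero_add]

theorem map_div {φ : F → W} (hs : IsColour k φ) {x y : F} (hx : x ≠ 0) (hy : y ≠ 0) :
    φ (x / y) = φ x - φ y := by
  have h := hs.map_mul (x / y) y (div_ne_zero hx hy) hy
  rw [div_mul_cancel₀ _ hy] at h
  rw [h]; abel

/-- Steinberg relation for three points on a line. -/
theorem three {φ : F → W} {ω : W →+ W →+ B} (hs : IsSymbol k φ ω) {P Q R : F}
    (hP : P ≠ 0) (hQ : Q ≠ 0) (hR : R ≠ 0) {β γ : k} (hβ : β ≠ 0) (hγ : γ ≠ 0)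
    (h : P = algebraMap k F β * Q + algebraMap k F γ * R) :
    ω (φ Q - φ P) (φ R - φ P) = 0 := by
  have hc := hs.toIsColour
  have hβ' : algebraMap k F β ≠ 0 := by simpa using hβ
  have hγ' : algebraMap k F γ ≠ 0 := by simpa using hγ
  have hX : algebraMap k F β * Q / P ≠ 0 := div_ne_zero (mul_ne_zero hβ' hQ) hP
  have hY : algebraMap k F γ * R / P ≠ 0 := div_ne_zero (mul_ne_zero hγ' hR) hP
  have hXY : 1 - algebraMap k F β * Q / P = algebraMap k F γ * R / P := by
    rw [eq_div_iff hP, sub_mul, div_mul_cancel₀ _ hP, one_mul]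
    linear_combination h
  have h1 : algebraMap k F β * Q / P ≠ 1 := by
    intro h1
    rw [h1, sub_self] at hXY
    exact hY hXY.symm
  have h2 := hs.steinberg _ hX h1
  rw [hXY, map_div hc (mul_ne_zero hβ' hQ) hP, map_div hc (mul_ne_zero hγ' hR) hP,
    map_smul' hc hβ hQ, map_smul' hc hγ hR] at h2
  exact h2

theorem add_const_ne {x : F} (hx : x ∉ Set.range (algebraMap k F)) (c : k) :
    x + algebraMap k F c ≠ 0 := by
  intro h
  apply hx
  refine ⟨-c, ?_⟩
  rw [map_neg]
  linear_combination -h

end C2

open C2

/-- ETL-C2 (four points on the graph of an affine map). -/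
theorem graph_orth {φ : F → W} {ω : W →+ W →+ B} (hs : IsSymbol k φ ω) {x y : F}
    (hx : x ∉ Set.range (algebraMap k F)) (hy : y ∉ Set.range (algebraMap k F))
    (hφx : φ x = 0) (hφy : φ y = 0) {a a' b b' : k} (ha : a ≠ 0) (ha' : a' ≠ 0) (hb : b ≠ 0)
    (hb' : b' ≠ 0) (hab : a' / a + b' / b = 1) {p q : W}
    (hp : φ (x + algebraMap k F a) = p) (hp' : φ (x + algebraMap k F a') = p)
    (hq : φ (y + algebraMap k F b) = q) (hq' : φ (y + algebraMap k F b') = q) :
    ω p q = 0 := by
  have hba : b / a ≠ 0 := div_ne_zero hb ha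
  by_cases hM : y + algebraMap k F (b / a) * x + algebraMap k F b = 0
  · -- `1`, `x + a`, `y + b'` are on one line
    have h1 : (1 : F) = algebraMap k F (b / a / b') * (x + algebraMap k F a) +
        algebraMap k F (1 / b') * (y + algebraMap k F b') := by
      have e1 : algebraMap k F (b / a / b') = algebraMap k F (1 / b') * algebraMap k F (b / a) := by
        rw [← map_mul]; congr 1; ring
      have e2 : algebraMap k F (1 / b') * algebraMap k F b' = 1 := by
        rw [← map_mul, one_div, inv_mul_cancel₀ hb', RingHom.map_one]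
      have e3 : algebraMap k F (b / a) * algebraMap k F a = algebraMap k F b := by
        rw [← map_mul, div_mul_cancel₀ _ ha]
      rw [e1]
      linear_combination (-algebraMap k F (1 / b')) * hM - e2 - algebraMap k F (1 / b') * e3
    have h2 := three hs one_ne_zero (add_const_ne hx a) (add_const_ne hy b')
      (div_ne_zero hba hb') (one_div_ne_zero hb') h1
    rw [C2.map_one hs.toIsColour, sub_zero, sub_zero, hp, hq'] at h2
    exact h2
  · set M : F := y + algebraMap k F (b / a) * x + algebraMap k F b with hMdef
    have key : ∀ t s : k, s = b * (1 - t / a) →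
        ω (φ (x + algebraMap k F t) - φ M) (φ (y + algebraMap k F s) - φ M) = 0 := by
      intro t s hst
      refine three hs hM (add_const_ne hx t) (add_const_ne hy s) hba one_ne_zero ?_
      have e1 : algebraMap k F s = algebraMap k F b - algebraMap k F (b / a) * algebraMap k F t := by
        rw [hst, ← map_mul, ← map_sub]; congr 1; field_simp
      rw [e1, RingHom.map_one, hMdef]
      ring
    have k0 := key 0 b (by simp)
    have ka := key a 0 (by rw [div_self ha]; simp)
    have ka' := key a' b' (by
      have : b' / b = 1 - a' / a := by linear_combination hab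
      rw [← this, mul_div_cancel₀ _ hb])
    rw [RingHom.map_zero, add_zero, hφx, hq, zero_sub] at k0
    rw [RingHom.map_zero, add_zero, hφy, hp, zero_sub] at ka
    rw [hp', hq'] at ka'
    have hmm := hs.alt (φ M)
    have e0 : ω (φ M) q = 0 := by
      have : ω (-φ M) (q - φ M) = - ω (φ M) q + ω (φ M) (φ M) := by
        simp only [map_neg, map_sub, AddMonoidHom.neg_apply]; abel
      rw [this, hmm, add_zero, neg_eq_zero] at k0
      exact k0
    have ea : ω p (φ M) = 0 := by
      have : ω (p - φ M) (-φ M) = - ω p (φ M) + ω (φ M) (φ M) := by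
        simp only [map_neg, map_sub, AddMonoidHom.sub_apply]; abel
      rw [this, hmm, add_zero, neg_eq_zero] at ka
      exact ka
    have : ω (p - φ M) (q - φ M) = ω p q - ω p (φ M) - ω (φ M) q + ω (φ M) (φ M) := by
      simp only [map_sub, AddMonoidHom.sub_apply]; abel
    rw [this, hmm, e0, ea, sub_zero, sub_zero, add_zero] at ka'
    exact ka'

end Pool.Agent.Helper58.ETL
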